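import Pool.Agent.Helper480.E25.A

set_option autoImplicit false

open Filter Topology Finset

namespace Pool.Agent.Helper480.E25

theorem gcd_lcm_lcm (a b q : ℕ) (ha : a ≠ 0) (hb : b ≠ 0) (hq : q ≠ 0) :
    Nat.gcd (Nat.lcm a q) (Nat.lcm b q) = Nat.lcm (Nat.gcd a b) q := by
  have h1 : Nat.lcm a q ≠ 0 := Nat.lcm_ne_zero ha hq
  have h2 : Nat.lcm b q ≠ 0 := Nat.lcm_ne_zero hb hq
  have h3 : Nat.gcd a b ≠ 0 := Nat.gcd_ne_zero_left ha
  apply Nat.eq_of_factorization_eq
  · exact Nat.gcd_ne_zero_left h1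
  · exact Nat.lcm_ne_zero h3 hq
  · intro p
    rw [Nat.factorization_gcd h1 h2, Nat.factorization_lcm ha hq, Nat.factorization_lcm hb hq,
      Nat.factorization_lcm h3 hq, Nat.factorization_gcd ha hb]
    simp only [Finsupp.inf_apply, Finsupp.sup_apply]
    exact (sup_inf_right _ _ _).symm

/-- the weight of a pair -/
def hh (L : ℕ → ℕ) (N N' : ℕ) : ℕ :=
  if N ≡ N' [MOD Nat.gcd (L N) (L N')] then Nat.gcd (L N) (L N') else 0

theorem hh_comm (L : ℕ → ℕ) (N N' : ℕ) : hh L N N' = hh L N' N := by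
  unfold hh
  rw [Nat.gcd_comm (L N') (L N)]
  by_cases h : N ≡ N' [MOD Nat.gcd (L N) (L N')]
  · rw [if_pos h, if_pos h.symm]
  · rw [if_neg h, if_neg (fun h' => h h'.symm)]

/-- the inner sum -/
theorem inner_bound (X Q T : ℕ) (hQ : 0 < Q) (S' : Finset ℕ) (hS : S' ⊆ Icc 1 X) (m : ℕ → ℕ)
    (N : ℕ) (hN : 0 < m N) (hNX : m N * Q ≤ X) (hm : ∀ N' ∈ S', 0 < m N')
    (hT : (S'.image (fun N' => Nat.gcd (m N) (m N'))).card ≤ T) :
    ∑ N' ∈ S', hh (fun N => Nat.lcm (m N) Q) N N' ≤ T * (2 * X) := by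
  classical
  set L : ℕ → ℕ := fun N => Nat.lcm (m N) Q with hL
  set g : ℕ → ℕ := fun N' => Nat.gcd (L N) (L N') with hg
  have h1 : (S'.image g).card ≤ T := by
    have h2 : S'.image g = (S'.image (fun N' => Nat.gcd (m N) (m N'))).image
        (fun d => Nat.lcm d Q) := by
      rw [image_image]
      apply image_congr
      intro N' hN'
      exact gcd_lcm_lcm _ _ _ hN.ne' (hm N' hN').ne' hQ.ne'
    rw [h2]
    exact card_image_le.trans hT
  have h2 : ∑ N' ∈ S', hh L N N' = ∑ d ∈ S'.image g, ∑ N' ∈ S'.filter (fun N' => g N' = d),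
      hh L N N' := by
    rw [sum_fiberwise_of_maps_to]
    intro N' hN'
    exact mem_image_of_mem g hN'
  rw [h2]
  calc _ ≤ ∑ d ∈ S'.image g, 2 * X := by
        apply sum_le_sum
        intro d hd
        obtain ⟨N0, hN0, rfl⟩ := mem_image.mp hd
        have hgpos : 0 < g N0 := Nat.gcd_pos_of_pos_left _ (Nat.lcm_pos hN hQ)
        have hgX : g N0 ≤ X := by
          calc g N0 ≤ L N := Nat.gcd_le_left _ (Nat.lcm_pos hN hQ)
            _ ≤ m N * Q := Nat.le_of_dvd (Nat.mul_pos hN hQ)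
                (Nat.lcm_dvd (Nat.dvd_mul_right _ _) (Nat.dvd_mul_left _ _))
            _ ≤ X := hNX
        calc ∑ N' ∈ S'.filter (fun N' => g N' = g N0), hh L N N'
            = ∑ N' ∈ S'.filter (fun N' => g N' = g N0),
                if N' ≡ N [MOD g N0] then g N0 else 0 := by
              apply sum_congr rfl
              intro N' hN'
              have e := (mem_filter.mp hN').2
              unfold hh
              have e' : Nat.gcd (L N) (L N') = g N0 := e
              rw [e']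
              by_cases h : N ≡ N' [MOD g N0]
              · rw [if_pos h, if_pos h.symm]
              · rw [if_neg h, if_neg (fun h' => h h'.symm)]
          _ ≤ ∑ N' ∈ Icc 1 X, if N' ≡ N [MOD g N0] then g N0 else 0 :=
              sum_le_sum_of_subset ((filter_subset _ _).trans hS)
          _ = ((Icc 1 X).filter (fun N' => N' ≡ N [MOD g N0])).card * g N0 := by
              rw [← sum_filter, sum_const, smul_eq_mul]
          _ ≤ X + g N0 := card_class_Icc X (g N0) N hgpos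
          _ ≤ 2 * X := by omega
    _ = (S'.image g).card * (2 * X) := by rw [sum_const, smul_eq_mul]
    _ ≤ T * (2 * X) := Nat.mul_le_mul_right _ h1

/-- bound for the second moment -/
theorem G_bound (X Q T : ℕ) (hQ : 0 < Q) (S : Finset ℕ) (hS : S ⊆ Icc 1 X) (m : ℕ → ℕ)
    (hm : ∀ N ∈ S, 0 < m N) (hmX : ∀ N ∈ S, m N * Q ≤ X) (r : ℕ → ℕ)
    (hT : ∀ N ∈ S, ((S.filter (fun N' => r N ≤ r N')).image
      (fun N' => Nat.gcd (m N) (m N'))).card ≤ T) :
    ∑ N ∈ S, ∑ N' ∈ S, hh (fun N => Nat.lcm (m N) Q) N N' ≤ 4 * T * X * S.card := by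
  classical
  set L : ℕ → ℕ := fun N => Nat.lcm (m N) Q with hL
  have h1 : ∀ N ∈ S, ∑ N' ∈ S, (if r N ≤ r N' then hh L N N' else 0) ≤ T * (2 * X) := by
    intro N hN
    rw [← sum_filter]
    exact inner_bound X Q T hQ _ ((filter_subset _ _).trans hS) m N (hm N hN) (hmX N hN)
      (fun N' hN' => hm N' (mem_filter.mp hN').1) (hT N hN)
  have h2 : ∑ N ∈ S, ∑ N' ∈ S, (if r N ≤ r N' then hh L N N' else 0) ≤ S.card * (T * (2 * X)) := by
    calc _ ≤ ∑ N ∈ S, T * (2 * X) := sum_le_sum h1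
      _ = _ := by rw [sum_const, smul_eq_mul]
  have h3 : ∑ N ∈ S, ∑ N' ∈ S, (if r N' ≤ r N then hh L N N' else 0) =
      ∑ N ∈ S, ∑ N' ∈ S, (if r N ≤ r N' then hh L N N' else 0) := by
    rw [sum_comm]
    apply sum_congr rfl
    intro N _
    apply sum_congr rfl
    intro N' _
    rw [hh_comm]
  calc ∑ N ∈ S, ∑ N' ∈ S, hh L N N'
      ≤ ∑ N ∈ S, ∑ N' ∈ S, ((if r N ≤ r N' then hh L N N' else 0) +
        (if r N' ≤ r N then hh L N N' else 0)) := by
        apply sum_le_sum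
        intro N _
        apply sum_le_sum
        intro N' _
        rcases le_total (r N) (r N') with h | h
        · rw [if_pos h]; exact Nat.le_add_right _ _
        · rw [if_pos h]; exact Nat.le_add_left _ _
    _ = ∑ N ∈ S, ∑ N' ∈ S, (if r N ≤ r N' then hh L N N' else 0) +
        ∑ N ∈ S, ∑ N' ∈ S, (if r N' ≤ r N then hh L N N' else 0) := by
        simp only [sum_add_distrib]
    _ ≤ S.card * (T * (2 * X)) + S.card * (T * (2 * X)) := by
        rw [h3]; exact add_le_add h2 h2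
    _ = 4 * T * X * S.card := by ring

/-- the transfer inequality -/
theorem transfer (X Q T P : ℕ) (hQ : 0 < Q) (hP : 0 < P) (S : Finset ℕ) (hS : S ⊆ Icc 1 X)
    (m : ℕ → ℕ) (hm : ∀ N ∈ S, 0 < m N) (hmX : ∀ N ∈ S, m N * Q ≤ X) (r : ℕ → ℕ)
    (hT : ∀ N ∈ S, ((S.filter (fun N' => r N ≤ r N')).image
      (fun N' => Nat.gcd (m N) (m N'))).card ≤ T)
    (hLP : ∀ N ∈ S, Nat.lcm (m N) Q ∣ P) (V : Finset ℕ)
    (hV : ∀ N ∈ S, ∀ t < P, t ≡ N [MOD Nat.lcm (m N) Q] → t ∈ V) :
    P * S.card ≤ 4 * T * X * V.card := by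
  rcases Nat.eq_zero_or_pos S.card with h0 | h0
  · rw [h0]; simp
  have h1 := second_moment P hP S (fun N => Nat.lcm (m N) Q)
    (fun N hN => Nat.lcm_pos (hm N hN) hQ) hLP V hV
  have h2 := G_bound X Q T hQ S hS m hm hmX r hT
  have h3 : P * S.card ^ 2 ≤ V.card * (4 * T * X * S.card) :=
    h1.trans (Nat.mul_le_mul_left _ h2)
  have h4 : S.card * (P * S.card) ≤ S.card * (4 * T * X * V.card) := by
    calc S.card * (P * S.card) = P * S.card ^ 2 := by ring
      _ ≤ V.card * (4 * T * X * S.card) := h3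
      _ = _ := by ring
  exact Nat.le_of_mul_le_mul_left h4 h0

end Pool.Agent.Helper480.E25
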