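import Pool.Agent.Helper480.E25.E

set_option autoImplicit false

open Filter Topology Finset

namespace Pool.Agent.Helper480.E25

theorem card_mult (X d : ℕ) : ((Icc 1 X).filter (fun m => d ∣ m)).card = X / d := by
  have : (Icc 1 X).filter (fun m => d ∣ m) = (Ioc 0 X).filter (fun m => d ∣ m) := by
    congr 1
  rw [this, Nat.Ioc_filter_dvd_card_eq_div]

/-- Turan's variance inequality for a finite set of primes -/
theorem turan (F : Finset ℕ) (hF : ∀ p ∈ F, p.Prime) (X : ℕ) :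
    ∑ m ∈ Icc 1 X, ((∑ p ∈ F, if p ∣ m then (1 : ℝ) else 0) - ∑ p ∈ F, (1 : ℝ) / p) ^ 2 ≤
      X * (∑ p ∈ F, (1 : ℝ) / p) + 2 * (∑ p ∈ F, (1 : ℝ) / p) * F.card := by
  set μ : ℝ := ∑ p ∈ F, (1 : ℝ) / p with hμ
  have hμ0 : 0 ≤ μ := sum_nonneg fun p _ => by positivity
  have h1 : ∑ m ∈ Icc 1 X, (∑ p ∈ F, if p ∣ m then (1 : ℝ) else 0) =
      ∑ p ∈ F, ((X / p : ℕ) : ℝ) := by
    rw [sum_comm]
    apply sum_congr rfl
    intro p _
    rw [← sum_filter, sum_const, card_mult]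
    simp
  have h2 : (X : ℝ) * μ - F.card ≤ ∑ p ∈ F, ((X / p : ℕ) : ℝ) := by
    have hc : (F.card : ℝ) = ∑ _p ∈ F, (1 : ℝ) := by simp
    rw [hμ, mul_sum, hc, ← sum_sub_distrib]
    apply sum_le_sum
    intro p hp
    have hp0 : 0 < p := (hF p hp).pos
    have := Nat.lt_div_mul_add hp0 (a := X)
    have h3 : (X : ℝ) < ((X / p : ℕ) : ℝ) * p + p := by exact_mod_cast this
    have h4 : (0 : ℝ) < p := by exact_mod_cast hp0
    have h5 : (X : ℝ) * (1 / p) < ((X / p : ℕ) : ℝ) + 1 := by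
      rw [mul_one_div, div_lt_iff₀ h4]
      linarith
    linarith
  have h3 : ∑ m ∈ Icc 1 X, (∑ p ∈ F, if p ∣ m then (1 : ℝ) else 0) ^ 2 ≤ X * (μ ^ 2 + μ) := by
    have e1 : ∀ m, (∑ p ∈ F, if p ∣ m then (1 : ℝ) else 0) ^ 2 =
        ∑ p ∈ F, ∑ q ∈ F, if (p ∣ m ∧ q ∣ m) then (1 : ℝ) else 0 := by
      intro m
      rw [sq, sum_mul_sum]
      apply sum_congr rfl
      intro p _
      apply sum_congr rfl
      intro q _
      by_cases ha : p ∣ m <;> by_cases hb : q ∣ m <;> simp [ha, hb]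
    simp_rw [e1]
    rw [sum_comm]
    have e2 : (X : ℝ) * (μ ^ 2 + μ) = ∑ p ∈ F, (∑ q ∈ F, (X : ℝ) * ((1 : ℝ) / p * (1 / q)) + X * (1 / p)) := by
      rw [sum_add_distrib, ← mul_sum, ← hμ, sq, hμ, sum_mul_sum, mul_add, mul_sum]
      congr 1
      apply sum_congr rfl
      intro p _
      rw [mul_sum]
    rw [e2]
    apply sum_le_sum
    intro p hp
    rw [sum_comm]
    have hp0 : (0 : ℝ) < p := by exact_mod_cast (hF p hp).pos
    have e3 : ∀ q ∈ F, ∑ m ∈ Icc 1 X, (if (p ∣ m ∧ q ∣ m) then (1 : ℝ) else 0) ≤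
        (X : ℝ) * ((1 : ℝ) / p * (1 / q)) + (if q = p then (X : ℝ) * (1 / p) else 0) := by
      intro q hq
      have hq0 : (0 : ℝ) < q := by exact_mod_cast (hF q hq).pos
      rw [← sum_filter, sum_const, nsmul_eq_mul, mul_one]
      by_cases hpq : q = p
      · subst hpq
        rw [if_pos rfl]
        have e4 : (Icc 1 X).filter (fun m => q ∣ m ∧ q ∣ m) = (Icc 1 X).filter (fun m => q ∣ m) := by
          apply filter_congr
          intro m _
          exact and_self_iff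
        rw [e4, card_mult]
        have e5 : ((X / q : ℕ) : ℝ) ≤ (X : ℝ) / q := Nat.cast_div_le
        have e6 : 0 ≤ (X : ℝ) * ((1 : ℝ) / q * (1 / q)) := by positivity
        have e7 : (X : ℝ) * (1 / q) = X / q := by ring
        rw [e7]
        linarith
      · rw [if_neg hpq, add_zero]
        have hc : Nat.Coprime p q := (Nat.coprime_primes (hF p hp) (hF q hq)).mpr (Ne.symm hpq)
        have e4 : (Icc 1 X).filter (fun m => p ∣ m ∧ q ∣ m) =
            (Icc 1 X).filter (fun m => p * q ∣ m) := by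
          apply filter_congr
          intro m _
          exact ⟨fun h => hc.mul_dvd_of_dvd_of_dvd h.1 h.2,
            fun h => ⟨(Nat.dvd_mul_right p q).trans h, (Nat.dvd_mul_left q p).trans h⟩⟩
        rw [e4, card_mult]
        have e5 : ((X / (p * q) : ℕ) : ℝ) ≤ (X : ℝ) / ((p * q : ℕ) : ℝ) := Nat.cast_div_le
        refine e5.trans (le_of_eq ?_)
        push_cast
        field_simp
    refine (sum_le_sum e3).trans (le_of_eq ?_)
    rw [sum_add_distrib, sum_ite_eq' F p, if_pos hp]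
  have h4 : ∑ m ∈ Icc 1 X, ((∑ p ∈ F, if p ∣ m then (1 : ℝ) else 0) - μ) ^ 2 =
      ∑ m ∈ Icc 1 X, (∑ p ∈ F, if p ∣ m then (1 : ℝ) else 0) ^ 2 -
      2 * μ * ∑ m ∈ Icc 1 X, (∑ p ∈ F, if p ∣ m then (1 : ℝ) else 0) + X * μ ^ 2 := by
    have e1 : ∀ m, ((∑ p ∈ F, if p ∣ m then (1 : ℝ) else 0) - μ) ^ 2 =
      (∑ p ∈ F, if p ∣ m then (1 : ℝ) else 0) ^ 2 -
      2 * μ * (∑ p ∈ F, if p ∣ m then (1 : ℝ) else 0) + μ ^ 2 := by intro m; ring
    simp_rw [e1]
    rw [sum_add_distrib, sum_sub_distrib, ← mul_sum, sum_const]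
    simp
  rw [h4, h1]
  nlinarith

/-- integers with at most `k` prime factors have density zero -/
theorem few_primes (k : ℕ) :
    Tendsto (fun X : ℕ => (cnt1 {m | m.primeFactors.card ≤ k} X : ℝ) / X) atTop (𝓝 0) := by
  classical
  rw [Metric.tendsto_atTop']
  intro ε hε
  -- a finite set of primes with large reciprocal sum
  obtain ⟨F, hF, hμ⟩ : ∃ F : Finset ℕ, (∀ p ∈ F, p.Prime) ∧
      2 * (k : ℝ) + 16 / ε + 1 ≤ ∑ p ∈ F, (1 : ℝ) / p := by
    by_contra hcon
    push Not at hcon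
    apply not_summable_one_div_on_primes
    apply summable_of_sum_le (c := 2 * (k : ℝ) + 16 / ε + 1)
    · intro p
      apply Set.indicator_nonneg
      intro p _
      positivity
    · intro u
      have h1 := (hcon (u.filter Nat.Prime) (fun p hp => (mem_filter.mp hp).2)).le
      rw [sum_filter] at h1
      refine le_trans (le_of_eq ?_) h1
      apply sum_congr rfl
      intro p _
      by_cases hp : p.Prime
      · rw [if_pos hp, Set.indicator_of_mem (by exact hp)]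
      · rw [if_neg hp, Set.indicator_of_notMem (by exact hp)]
  set μ : ℝ := ∑ p ∈ F, (1 : ℝ) / p with hμdef
  have hk0 : (0 : ℝ) ≤ k := Nat.cast_nonneg k
  have h16 : 0 < 16 / ε := by positivity
  have hμpos : 0 < μ := by linarith
  refine ⟨Nat.ceil (4 * (F.card : ℝ)) + 1, fun X hX => ?_⟩
  have hXpos : (0 : ℝ) < X := by
    have : 0 < X := by omega
    exact_mod_cast this
  have hXF : 4 * (F.card : ℝ) ≤ X := by
    have h1 := Nat.le_ceil (4 * (F.card : ℝ))
    have h2 : ((Nat.ceil (4 * (F.card : ℝ)) : ℕ) : ℝ) ≤ X := by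
      have : Nat.ceil (4 * (F.card : ℝ)) ≤ X := by omega
      exact_mod_cast this
    linarith
  have h1 := turan F hF X
  rw [← hμdef] at h1
  have h2 : (cnt1 {m | m.primeFactors.card ≤ k} X : ℝ) * (μ - k) ^ 2 ≤
      ∑ m ∈ Icc 1 X, ((∑ p ∈ F, if p ∣ m then (1 : ℝ) else 0) - μ) ^ 2 := by
    rw [cnt1_eq]
    have e1 : ((((Icc 1 X).filter (fun t => t ∈ {m : ℕ | m.primeFactors.card ≤ k})).card : ℕ) : ℝ) *
        (μ - k) ^ 2 = ∑ m ∈ (Icc 1 X).filter (fun t => t ∈ {m : ℕ | m.primeFactors.card ≤ k}),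
          (μ - k) ^ 2 := by
      rw [sum_const, nsmul_eq_mul]
    rw [e1]
    refine le_trans (sum_le_sum ?_) (sum_le_sum_of_subset_of_nonneg (filter_subset _ _)
      (fun m _ _ => sq_nonneg _))
    intro m hm
    obtain ⟨hm1, hm2⟩ := mem_filter.mp hm
    have hm0 : m ≠ 0 := by
      have := (mem_Icc.mp hm1).1
      omega
    have e2 : (∑ p ∈ F, if p ∣ m then (1 : ℝ) else 0) ≤ k := by
      rw [← sum_filter, sum_const, nsmul_eq_mul, mul_one]
      have : F.filter (fun p => p ∣ m) ⊆ m.primeFactors := by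
        intro p hp
        rw [mem_filter] at hp
        exact Nat.mem_primeFactors.mpr ⟨hF p hp.1, hp.2, hm0⟩
      have h3 := card_le_card this
      have h4 : m.primeFactors.card ≤ k := hm2
      exact_mod_cast h3.trans h4
    have e3 : (k : ℝ) ≤ μ := by linarith
    nlinarith
  have h3 : μ / 2 ≤ μ - k := by linarith
  have h4 : (μ / 2) ^ 2 ≤ (μ - k) ^ 2 := by
    apply pow_le_pow_left₀ (by positivity) h3
  have h5 : (cnt1 {m | m.primeFactors.card ≤ k} X : ℝ) * (μ / 2) ^ 2 ≤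
      X * μ + 2 * μ * F.card := by
    calc _ ≤ (cnt1 {m | m.primeFactors.card ≤ k} X : ℝ) * (μ - k) ^ 2 := by gcongr
      _ ≤ _ := h2.trans h1
  have h6 : (cnt1 {m | m.primeFactors.card ≤ k} X : ℝ) * μ ≤ 6 * X := by
    have : (cnt1 {m | m.primeFactors.card ≤ k} X : ℝ) * μ * μ ≤ 6 * X * μ := by nlinarith
    exact le_of_mul_le_mul_right this hμpos
  have h7 : (cnt1 {m | m.primeFactors.card ≤ k} X : ℝ) / X < ε := by
    rw [div_lt_iff₀ hXpos]
    have h8 : 16 / ε < μ := by linarith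
    have h9 : 16 < μ * ε := by rwa [div_lt_iff₀ hε] at h8
    have h10 : (0 : ℝ) ≤ (cnt1 {m | m.primeFactors.card ≤ k} X : ℝ) := Nat.cast_nonneg _
    by_contra hcon
    push Not at hcon
    have : ε * X * μ ≤ 6 * X := by
      calc ε * X * μ ≤ (cnt1 {m | m.primeFactors.card ≤ k} X : ℝ) * μ := by gcongr
        _ ≤ _ := h6
    nlinarith
  rw [Real.dist_eq, sub_zero, abs_of_nonneg (by positivity)]
  exact h7

end Pool.Agent.Helper480.E25
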