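import Pool.Agent.Helper480.E25.F

set_option autoImplicit false

open Filter Topology Finset

namespace Pool.Agent.Helper480.E25

/-- partial summation -/
theorem partial_sum (A : Set ℕ) (x : ℕ) :
    ∑ m ∈ Icc 1 x, Set.indicator A (fun m : ℕ => (1 : ℝ) / (m : ℝ)) m =
      (cnt1 A x : ℝ) / (x + 1) +
        ∑ m ∈ range (x + 1), (cnt1 A m : ℝ) / m * (1 / ((m : ℝ) + 1)) := by
  classical
  induction x with
  | zero => simp [cnt1]
  | succ x ih =>
    have hc : (cnt1 A (x + 1) : ℝ) = cnt1 A x + (if x + 1 ∈ A then 1 else 0) := by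
      rw [cnt1_eq, cnt1_eq]
      have : Icc 1 (x + 1) = insert (x + 1) (Icc 1 x) := by
        ext t
        simp only [Finset.mem_Icc, Finset.mem_insert]
        omega
      rw [this, filter_insert]
      split_ifs with h
      · rw [card_insert_of_notMem]
        · push_cast; ring
        · simp
      · simp
    rw [sum_range_succ, Finset.sum_Icc_succ_top (by omega), ih]
    have hx : ((x : ℝ) + 1) ≠ 0 := by positivity
    have hx2 : ((x : ℝ) + 1 + 1) ≠ 0 := by positivity
    have e1 : Set.indicator A (fun m : ℕ => (1 : ℝ) / (m : ℝ)) (x + 1) =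
        (if x + 1 ∈ A then 1 else 0) / ((x : ℝ) + 1) := by
      by_cases h : x + 1 ∈ A
      · rw [Set.indicator_of_mem h, if_pos h]; push_cast; rfl
      · rw [Set.indicator_of_notMem h, if_neg h, zero_div]
    rw [e1, hc]
    push_cast
    field_simp
    ring

/-- natural density implies logarithmic density -/
theorem log_density (A : Set ℕ) (δ : ℝ)
    (h : Tendsto (fun X : ℕ => (cnt1 A X : ℝ) / X) atTop (𝓝 δ)) :
    Tendsto (fun x : ℕ => (∑ m ∈ Icc 1 x, Set.indicator A (fun m : ℕ => (1 : ℝ) / (m : ℝ)) m) /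
      Real.log (x : ℝ)) atTop (𝓝 δ) := by
  have hlog : Tendsto (fun x : ℕ => Real.log (x : ℝ)) atTop atTop :=
    Real.tendsto_log_atTop.comp tendsto_natCast_atTop_atTop
  have hharm : ∀ x : ℕ, ∑ m ∈ range x, (1 : ℝ) / ((m : ℝ) + 1) = (harmonic x : ℝ) := by
    intro x
    unfold harmonic
    push_cast
    apply sum_congr rfl
    intro m _
    rw [one_div]
  -- the error sum
  have h1 : (fun m : ℕ => ((cnt1 A m : ℝ) / m - δ) * (1 / ((m : ℝ) + 1))) =o[atTop]
      (fun m : ℕ => (1 : ℝ) / ((m : ℝ) + 1)) := by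
    have h2 : (fun m : ℕ => ((cnt1 A m : ℝ) / m - δ)) =o[atTop] (fun _ : ℕ => (1 : ℝ)) := by
      rw [Asymptotics.isLittleO_one_iff]
      simpa using h.sub_const δ
    have h3 := h2.mul_isBigO (Asymptotics.isBigO_refl (fun m : ℕ => (1 : ℝ) / ((m : ℝ) + 1)) atTop)
    simpa using h3
  have h2 := h1.sum_range (fun m => by positivity) Real.tendsto_sum_range_one_div_nat_succ_atTop
  have h3 : Tendsto (fun x : ℕ => (harmonic (x + 1) : ℝ) / Real.log x) atTop (𝓝 1) := by
    have u1 : ∀ᶠ x : ℕ in atTop, (1 : ℝ) ≤ (harmonic (x + 1) : ℝ) / Real.log x := by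
      filter_upwards [hlog.eventually_gt_atTop 0, eventually_gt_atTop 0] with x hx hx0
      rw [le_div_iff₀ hx, one_mul]
      have := log_add_one_le_harmonic (x + 1)
      refine le_trans (Real.log_le_log (by exact_mod_cast hx0) ?_) this
      push_cast
      linarith
    have u2 : ∀ᶠ x : ℕ in atTop, (harmonic (x + 1) : ℝ) / Real.log x ≤
        1 + (1 + Real.log 2) / Real.log x := by
      filter_upwards [hlog.eventually_gt_atTop 0, eventually_gt_atTop 0] with x hx hx0
      have h5 := harmonic_le_one_add_log (x + 1)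
      have h6 : Real.log ((x + 1 : ℕ) : ℝ) ≤ Real.log x + Real.log 2 := by
        rw [← Real.log_mul (by exact_mod_cast hx0.ne') (by norm_num)]
        apply Real.log_le_log (by positivity)
        have : (1 : ℝ) ≤ x := by exact_mod_cast hx0
        push_cast
        linarith
      rw [div_le_iff₀ hx, add_mul, div_mul_cancel₀ _ hx.ne']
      linarith
    have u3 : Tendsto (fun x : ℕ => 1 + (1 + Real.log 2) / Real.log x) atTop (𝓝 1) := by
      have := (tendsto_const_nhds (x := 1 + Real.log 2)).div_atTop hlog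
      simpa using this.const_add 1
    exact tendsto_of_tendsto_of_tendsto_of_le_of_le' tendsto_const_nhds u3 u1 u2
  -- assemble
  have h4 : Tendsto (fun x : ℕ => (∑ m ∈ range (x + 1),
      ((cnt1 A m : ℝ) / m - δ) * (1 / ((m : ℝ) + 1))) / Real.log x) atTop (𝓝 0) := by
    have h5 := (h2.comp_tendsto (tendsto_add_atTop_nat 1)).tendsto_div_nhds_zero
    have h6 := h5.mul h3
    rw [zero_mul] at h6
    refine h6.congr' ?_
    filter_upwards [hlog.eventually_gt_atTop 0] with x hx
    simp only [Function.comp_apply]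
    rw [hharm]
    have hpos : (0 : ℝ) < (harmonic (x + 1) : ℝ) := by
      exact_mod_cast harmonic_pos (Nat.succ_ne_zero x)
    field_simp
  have h7 : Tendsto (fun x : ℕ => (cnt1 A x : ℝ) / (x + 1) / Real.log x) atTop (𝓝 0) := by
    have u4 : Tendsto (fun x : ℕ => 1 / Real.log (x : ℝ)) atTop (𝓝 0) :=
      (tendsto_const_nhds (x := (1 : ℝ))).div_atTop hlog
    refine squeeze_zero' ?_ ?_ u4
    · filter_upwards [hlog.eventually_gt_atTop 0] with x hx
      positivity
    · filter_upwards [hlog.eventually_gt_atTop 0] with x hx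
      have : (cnt1 A x : ℝ) / (x + 1) ≤ 1 := by
        rw [div_le_one (by positivity)]
        have := cnt1_le A x
        have h8 : (cnt1 A x : ℝ) ≤ x := by exact_mod_cast this
        linarith
      gcongr
  have h8 := (h7.add h4).add (h3.const_mul δ)
  rw [zero_add, zero_add, mul_one] at h8
  refine h8.congr fun x => ?_
  rw [partial_sum]
  have e1 : ∑ m ∈ range (x + 1), (cnt1 A m : ℝ) / m * (1 / ((m : ℝ) + 1)) =
      ∑ m ∈ range (x + 1), ((cnt1 A m : ℝ) / m - δ) * (1 / ((m : ℝ) + 1)) +
        δ * (harmonic (x + 1) : ℝ) := by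
    rw [← hharm, mul_sum, ← sum_add_distrib]
    apply sum_congr rfl
    intro m _
    ring
  rw [e1]
  ring

end Pool.Agent.Helper480.E25
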