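import Pool.Agent.Helper480.E25.G

set_option autoImplicit false

open Filter Topology Finset

namespace Pool.Agent.Helper480.E25

/-- The set `A` of the problem: the class `a_i mod n_i` is removed from `n_i` on. -/
def A (n : ℕ → ℕ) (a : ℕ → ℤ) : Set ℕ :=
  {m : ℕ | ∀ i, m < n i ∨ ¬ ((m : ℤ) ≡ a i [ZMOD (n i : ℤ)])}

open Classical in
/-- `S` has natural density `δ`. -/
def NatDensity (S : Set ℕ) (δ : ℝ) : Prop :=
  Tendsto (fun x : ℕ => (((Finset.Icc 1 x).filter (fun m => m ∈ S)).card : ℝ) / (x : ℝ))
    atTop (𝓝 δ)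

/-- `S` has logarithmic density `δ`. -/
def LogDensity (S : Set ℕ) (δ : ℝ) : Prop :=
  Tendsto (fun x : ℕ => (∑ m ∈ Finset.Icc 1 x, Set.indicator S (fun m : ℕ => (1 : ℝ) / (m : ℝ)) m) /
    Real.log (x : ℝ)) atTop (𝓝 δ)

theorem log_of_nat {S : Set ℕ} {δ : ℝ} (h : NatDensity S δ) : LogDensity S δ :=
  log_density S δ h

theorem zero_of_subset {S S' : Set ℕ} (h : S ⊆ S') (h' : NatDensity S' 0) : NatDensity S 0 := by
  refine squeeze_zero (fun x => by positivity) (fun x => ?_) h'
  have := cnt1_mono h x
  have h2 : (cnt1 S x : ℝ) ≤ cnt1 S' x := by exact_mod_cast this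
  exact div_le_div_of_nonneg_right h2 (by positivity)

/-- the general form -/
theorem general (n : ℕ → ℕ) (a : ℕ → ℤ) (B : Set ℕ) (T : ℕ) (r : ℕ → ℕ) (hn : StrictMono n)
    (hpos : ∀ i, 0 < n i) (hB : Summable (B.indicator fun i => (1 : ℝ) / n i))
    (hT : ∀ i, i ∉ B → ∀ F : Finset ℕ, (∀ j ∈ F, j ∉ B ∧ r i ≤ r j) →
      (F.image (fun j => Nat.gcd (n i) (n j))).card ≤ T)
    (hZ : NatDensity {m | ∃ i, i ∉ B ∧ n i = m} 0) :
    ∃ δ : ℝ, NatDensity (A n a) δ ∧ LogDensity (A n a) δ := by
  classical
  have h1 := density_KK (a := a) hn hpos B hB T r hT hZ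
  have h2 : NatDensity (A n a) (1 - DL n a) := by
    have h3 : Tendsto (fun X : ℕ => (1 : ℝ) - (cnt1 (KK n a) X : ℝ) / X) atTop (𝓝 (1 - DL n a)) :=
      h1.const_sub 1
    refine h3.congr' ?_
    filter_upwards [eventually_gt_atTop 0] with X hX
    have hX' : (X : ℝ) ≠ 0 := by exact_mod_cast hX.ne'
    have h4 : cnt1 (KK n a) X + cnt1 (A n a) X = X := by
      rw [cnt1_eq, cnt1_eq]
      have e1 : (Icc 1 X).filter (fun t => t ∈ A n a) =
          (Icc 1 X).filter (fun t => ¬ (t ∈ KK n a)) := by
        apply filter_congr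
        intro t _
        unfold A KK
        simp only [Set.mem_ofPred_eq, not_exists, not_and]
        constructor
        · intro h i hi hc
          rcases h i with h' | h'
          · omega
          · exact h' hc
        · intro h i
          by_cases hi : t < n i
          · exact Or.inl hi
          · exact Or.inr (h i (not_lt.mp hi))
      rw [e1, card_filter_add_card_filter_not]
      simp
    have h5 : (cnt1 (KK n a) X : ℝ) + cnt1 (A n a) X = X := by exact_mod_cast h4
    have h6 : (((Finset.Icc 1 X).filter (fun m => m ∈ A n a)).card : ℝ) = cnt1 (A n a) X := by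
      rw [cnt1_eq]
    show _ = (((Finset.Icc 1 X).filter (fun m => m ∈ A n a)).card : ℝ) / (X : ℝ)
    rw [h6]
    have h7 : (cnt1 (A n a) X : ℝ) = X - cnt1 (KK n a) X := by linarith
    rw [h7]
    field_simp
  exact ⟨1 - DL n a, h2, log_of_nat h2⟩

/-- the divisors of a product of a prime power and a number coprime to it -/
theorem card_pf_le (m : ℕ) : m.primeFactors.card ≤ m.divisors.card := by
  apply card_le_card
  intro p hp
  rw [Nat.mem_primeFactors] at hp
  exact Nat.mem_divisors.mpr hp.2

/-- moduli which are the product of a prime power and an integer with few divisors -/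
theorem prime_power_case (n : ℕ → ℕ) (a : ℕ → ℤ) (B : Set ℕ) (T : ℕ) (hn : StrictMono n)
    (hpos : ∀ i, 0 < n i) (hB : Summable (B.indicator fun i => (1 : ℝ) / n i))
    (hT : ∀ i, i ∉ B → ∃ p e m : ℕ, p.Prime ∧ n i = p ^ e * m ∧ m.divisors.card ≤ T) :
    ∃ δ : ℝ, NatDensity (A n a) δ ∧ LogDensity (A n a) δ := by
  classical
  -- normal form
  have h1 : ∀ i, ∃ p : ℕ, i ∉ B → p.Prime ∧ (n i / p ^ (n i).factorization p).divisors.card ≤ T := by
    intro i
    by_cases hi : i ∈ B
    · exact ⟨0, fun h => absurd hi h⟩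
    · obtain ⟨p, e, m, hp, hnm, hm⟩ := hT i hi
      refine ⟨p, fun _ => ⟨hp, ?_⟩⟩
      have hm0 : m ≠ 0 := by
        rintro rfl
        have := hpos i
        rw [hnm] at this
        simp at this
      refine le_trans (card_le_card ?_) hm
      apply Nat.divisors_subset_of_dvd hm0
      -- n / p^v divides m
      have h2 : n i / p ^ (n i).factorization p ∣ p ^ e * m := by
        rw [← hnm]
        exact Nat.ordCompl_dvd _ _
      have h3 : Nat.Coprime (n i / p ^ (n i).factorization p) (p ^ e) :=
        (Nat.Coprime.pow_left e (Nat.coprime_ordCompl hp (hpos i).ne')).symm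
      exact h3.dvd_of_dvd_mul_left h2
  choose p hp using h1
  set e : ℕ → ℕ := fun i => (n i).factorization (p i) with he
  set m : ℕ → ℕ := fun i => n i / p i ^ e i with hm
  have hmpos : ∀ i, 0 < m i := fun i => Nat.ordCompl_pos _ (hpos i).ne'
  refine general n a B ((T + 1) * T) e hn hpos hB ?_ ?_
  · intro i hi F hF
    obtain ⟨hpi, hTi⟩ := hp i hi
    have hsub : F.image (fun j => Nat.gcd (n i) (n j)) ⊆
        ((insert (e i) (range T)) ×ˢ (m i).divisors).image (fun x => p i ^ x.1 * x.2) := by
      intro d hd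
      obtain ⟨j, hj, rfl⟩ := mem_image.mp hd
      obtain ⟨hjB, hij⟩ := hF j hj
      obtain ⟨hpj, hTj⟩ := hp j hjB
      set d := Nat.gcd (n i) (n j) with hd'
      have hd0 : d ≠ 0 := Nat.gcd_ne_zero_left (hpos i).ne'
      rw [mem_image]
      refine ⟨(d.factorization (p i), d / p i ^ d.factorization (p i)), ?_,
        Nat.ordProj_mul_ordCompl_eq_self _ _⟩
      rw [mem_product]
      constructor
      · have hfac : d.factorization (p i) = min (e i) ((n j).factorization (p i)) := by
          rw [hd', Nat.factorization_gcd (hpos i).ne' (hpos j).ne']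
          rfl
        show d.factorization (p i) ∈ insert (e i) (range T)
        rw [hfac, mem_insert]
        by_cases hpp : p j = p i
        · left
          have : (n j).factorization (p i) = e j := by rw [he, ← hpp]
          rw [this]
          exact min_eq_left hij
        · right
          rw [mem_range]
          refine lt_of_le_of_lt (min_le_right _ _) ?_
          -- p i ^ v divides m j
          set v := (n j).factorization (p i) with hv
          have h4 : p i ^ v ∣ p j ^ e j * m j := by
            have : p j ^ e j * m j = n j := Nat.ordProj_mul_ordCompl_eq_self _ _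
            rw [this]
            exact Nat.ordProj_dvd _ _
          have h5 : Nat.Coprime (p i ^ v) (p j ^ e j) :=
            Nat.Coprime.pow _ _ ((Nat.coprime_primes hpi hpj).mpr (Ne.symm hpp))
          have h6 : p i ^ v ∣ m j := h5.dvd_of_dvd_mul_left h4
          have h7 : (range (v + 1)).image (fun k => p i ^ k) ⊆ (m j).divisors := by
            intro x hx
            obtain ⟨k, hk, rfl⟩ := mem_image.mp hx
            rw [mem_range] at hk
            exact Nat.mem_divisors.mpr ⟨(pow_dvd_pow _ (by omega)).trans h6, (hmpos j).ne'⟩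
          have h8 := card_le_card h7
          rw [card_image_of_injective _ (Nat.pow_right_injective hpi.two_le), card_range] at h8
          have hTj' : (m j).divisors.card ≤ T := hTj
          omega
      · show d / p i ^ d.factorization (p i) ∈ (m i).divisors
        rw [Nat.mem_divisors]
        refine ⟨?_, (hmpos i).ne'⟩
        exact Nat.ordCompl_dvd_ordCompl_of_dvd (Nat.gcd_dvd_left _ _) (p i)
    refine (card_le_card hsub).trans (card_image_le.trans ?_)
    rw [card_product]
    refine Nat.mul_le_mul ((card_insert_le _ _).trans (by simp)) hTi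
  · refine zero_of_subset ?_ (few_primes (T + 1))
    rintro x ⟨i, hi, rfl⟩
    obtain ⟨hpi, hTi⟩ := hp i hi
    show (n i).primeFactors.card ≤ T + 1
    have h2 : n i = p i ^ e i * m i := (Nat.ordProj_mul_ordCompl_eq_self _ _).symm
    have h3 : (n i).primeFactors ⊆ insert (p i) (m i).primeFactors := by
      intro q hq
      rw [h2] at hq
      rw [Nat.mem_primeFactors] at hq
      rw [mem_insert]
      rcases (hq.1.dvd_mul).mp hq.2.1 with h | h
      · left
        exact (Nat.prime_dvd_prime_iff_eq hq.1 hpi).mp (hq.1.dvd_of_dvd_pow h)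
      · right
        exact Nat.mem_primeFactors.mpr ⟨hq.1, h, (hmpos i).ne'⟩
    refine (card_le_card h3).trans ((card_insert_le _ _).trans ?_)
    have := (card_pf_le (m i)).trans hTi
    omega

/-- moduli which are the product of a member of a divisibility chain and an integer with few
divisors -/
theorem chain_case (n : ℕ → ℕ) (a : ℕ → ℤ) (B : Set ℕ) (T : ℕ) (c : ℕ → ℕ) (hn : StrictMono n)
    (hpos : ∀ i, 0 < n i) (hB : Summable (B.indicator fun i => (1 : ℝ) / n i))
    (hc : ∀ k, c k ∣ c (k + 1))
    (hT : ∀ i, i ∉ B → ∃ k m : ℕ, n i = c k * m ∧ m.divisors.card ≤ T) :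
    ∃ δ : ℝ, NatDensity (A n a) δ ∧ LogDensity (A n a) δ := by
  classical
  have hcm : ∀ k l, k ≤ l → c k ∣ c l := by
    intro k l hkl
    induction l, hkl using Nat.le_induction with
    | base => exact dvd_rfl
    | succ l _ ih => exact ih.trans (hc l)
  have h1 : ∀ i, ∃ k m : ℕ, i ∉ B → n i = c k * m ∧ m.divisors.card ≤ T := by
    intro i
    by_cases hi : i ∈ B
    · exact ⟨0, 0, fun h => absurd hi h⟩
    · obtain ⟨k, m, h⟩ := hT i hi
      exact ⟨k, m, fun _ => h⟩
  choose k m hkm using h1
  have hm0 : ∀ i, i ∉ B → m i ≠ 0 := by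
    intro i hi h0
    have := hpos i
    rw [(hkm i hi).1, h0] at this
    simp at this
  have hc0 : ∀ i, i ∉ B → c (k i) ≠ 0 := by
    intro i hi h0
    have := hpos i
    rw [(hkm i hi).1, h0] at this
    simp at this
  refine general n a B T k hn hpos hB ?_ ?_
  · intro i hi F hF
    obtain ⟨hni, hTi⟩ := hkm i hi
    refine le_trans (card_le_card (t := (m i).divisors.image (fun d => c (k i) * d)) ?_)
      (card_image_le.trans hTi)
    intro d hd
    obtain ⟨j, hj, rfl⟩ := mem_image.mp hd
    obtain ⟨hjB, hij⟩ := hF j hj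
    obtain ⟨hnj, -⟩ := hkm j hjB
    obtain ⟨u, hu⟩ := hcm _ _ hij
    rw [mem_image]
    refine ⟨Nat.gcd (m i) (u * m j), Nat.mem_divisors.mpr ⟨Nat.gcd_dvd_left _ _, hm0 i hi⟩, ?_⟩
    rw [hni, hnj, hu, mul_assoc, Nat.gcd_mul_left]
  · -- density zero
    by_cases hbd : ∃ K, ∀ i, i ∉ B → (c (k i)).primeFactors.card ≤ K
    · obtain ⟨K, hK⟩ := hbd
      refine zero_of_subset ?_ (few_primes (K + T))
      rintro x ⟨i, hi, rfl⟩
      show (n i).primeFactors.card ≤ K + T
      obtain ⟨hni, hTi⟩ := hkm i hi
      rw [hni, Nat.primeFactors_mul (hc0 i hi) (hm0 i hi)]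
      have := card_union_le (c (k i)).primeFactors (m i).primeFactors
      have h2 := hK i hi
      have h3 := (card_pf_le (m i)).trans hTi
      omega
    · push Not at hbd
      -- `c` is unbounded and nonzero
      have hunb : ∀ M : ℕ, ∃ l, M ≤ c l ∧ c l ≠ 0 := by
        intro M
        obtain ⟨i, hi, h2⟩ := hbd M
        refine ⟨k i, ?_, hc0 i hi⟩
        have h3 : (c (k i)).primeFactors.card ≤ c (k i) := by
          refine (card_pf_le _).trans ?_
          exact Nat.card_divisors_le_self _
        omega
      show Tendsto (fun X : ℕ => (cnt1 {m | ∃ i, i ∉ B ∧ n i = m} X : ℝ) / X) atTop (𝓝 0)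
      rw [Metric.tendsto_atTop']
      intro ε hε
      obtain ⟨l, hl, hl0⟩ := hunb (Nat.ceil (4 / ε) + 1)
      have hlpos : (0 : ℝ) < c l := by exact_mod_cast Nat.pos_of_ne_zero hl0
      have hlε : 1 / (c l : ℝ) ≤ ε / 4 := by
        rw [div_le_iff₀ hlpos]
        have h3 : 4 / ε ≤ (c l : ℝ) := by
          have h4 := Nat.le_ceil (4 / ε)
          have h5 : ((Nat.ceil (4 / ε) : ℕ) : ℝ) ≤ c l := by
            have : Nat.ceil (4 / ε) ≤ c l := by omega
            exact_mod_cast this
          linarith
        rw [div_le_iff₀ hε] at h3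
        linarith
      -- bound for the number of prime factors of the earlier terms
      obtain ⟨K, hK⟩ : ∃ K, ∀ j < l, (c j).primeFactors.card ≤ K :=
        ⟨(range l).sup (fun j => (c j).primeFactors.card), fun j hj =>
          Finset.le_sup (f := fun j => (c j).primeFactors.card) (mem_range.mpr hj)⟩
      have hsub : {m | ∃ i, i ∉ B ∧ n i = m} ⊆
          {m | m.primeFactors.card ≤ K + T} ∪ {m | c l ∣ m} := by
        rintro x ⟨i, hi, rfl⟩
        obtain ⟨hni, hTi⟩ := hkm i hi
        rcases lt_or_ge (k i) l with h3 | h3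
        · left
          show (n i).primeFactors.card ≤ K + T
          rw [hni, Nat.primeFactors_mul (hc0 i hi) (hm0 i hi)]
          have := card_union_le (c (k i)).primeFactors (m i).primeFactors
          have h2 := hK _ h3
          have h4 := (card_pf_le (m i)).trans hTi
          omega
        · right
          show c l ∣ n i
          rw [hni]
          exact (hcm _ _ h3).trans (Nat.dvd_mul_right _ _)
      have hfp := (tendsto_order.mp (few_primes (K + T))).2 (ε / 4) (by positivity)
      obtain ⟨X0, hX0⟩ := eventually_atTop.mp hfp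
      refine ⟨X0 + 1, fun X hX => ?_⟩
      have hX' := hX0 X (by omega)
      have hXpos : (0 : ℝ) < X := by
        have : 0 < X := by omega
        exact_mod_cast this
      have h6 : cnt1 {m | ∃ i, i ∉ B ∧ n i = m} X ≤
          cnt1 {m | m.primeFactors.card ≤ K + T} X + cnt1 {m | c l ∣ m} X :=
        (cnt1_mono hsub X).trans (cnt1_union _ _ _)
      have h7 : (cnt1 {m | c l ∣ m} X : ℝ) ≤ X / c l := by
        rw [cnt1_eq]
        have : (Icc 1 X).filter (fun t => t ∈ {m | c l ∣ m}) = (Icc 1 X).filter (fun t => c l ∣ t) := by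
          apply filter_congr
          intro t _
          exact Iff.rfl
        rw [this, card_mult]
        exact Nat.cast_div_le
      have h8 : (cnt1 {m | ∃ i, i ∉ B ∧ n i = m} X : ℝ) ≤
          cnt1 {m | m.primeFactors.card ≤ K + T} X + cnt1 {m | c l ∣ m} X := by exact_mod_cast h6
      rw [Real.dist_eq, sub_zero, abs_of_nonneg (by positivity), div_lt_iff₀ hXpos]
      rw [div_lt_iff₀ hXpos] at hX'
      have h9 : (X : ℝ) / c l ≤ ε / 4 * X := by
        calc (X : ℝ) / c l = 1 / c l * X := by ring
          _ ≤ ε / 4 * X := by gcongr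
      nlinarith

end Pool.Agent.Helper480.E25
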